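import Mathlib

set_option autoImplicit false

namespace Pool.Agent.Results.MP_51bff2_lc.Poly

open Finset

theorem cover {α β : Type} [DecidableEq α] (w : α → ℝ) (hw : ∀ a, 0 ≤ w a) (S : Finset α)
    (P : Finset β) (T : β → Finset α) (h : ∀ x ∈ S, ∃ p ∈ P, x ∈ T p) :
    ∑ x ∈ S, w x ≤ ∑ p ∈ P, ∑ x ∈ T p, w x := by
  calc ∑ x ∈ S, w x ≤ ∑ x ∈ S, ∑ p ∈ P, if x ∈ T p then w x else 0 := sum_le_sum fun x hx => by
        obtain ⟨p, hp, h1⟩ := h x hx
        refine le_trans (by rw [if_pos h1]) (single_le_sum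
          (f := fun p => if x ∈ T p then w x else 0) (fun q _ => ?_) hp)
        have := hw x
        positivity
    _ ≤ _ := by
        rw [sum_comm]
        refine sum_le_sum fun p _ => ?_
        rw [← sum_filter]
        exact sum_le_sum_of_subset_of_nonneg (fun x hx => (mem_filter.1 hx).2) fun x _ _ => hw x

def lam (γ : ℕ → ℝ) (b v : ℕ) : ℝ := if v = b then γ b else γ v - γ (v - 1)

theorem tele (γ : ℕ → ℝ) {b x : ℕ} (h : b ≤ x) : ∑ v ∈ Icc b x, lam γ b v = γ x := by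
  induction x, h using Nat.le_induction with
  | base => simp [lam]
  | succ x h ih =>
    rw [sum_Icc_succ_top (by omega), ih, lam, if_neg (by omega)]
    simp

def mu {n : ℕ} (γ : Fin n → ℕ → ℝ) (b R : Fin n → ℕ) : ℝ := ∏ j, lam (γ j) (b j) (R j)

theorem box' {n : ℕ} (γ : Fin n → ℕ → ℝ) (b lo hi : Fin n → ℕ) :
    ∑ R ∈ Icc lo hi, mu γ b R = ∏ j, ∑ v ∈ Icc (lo j) (hi j), lam (γ j) (b j) v := by
  rw [Pi.Icc_eq, prod_univ_sum]; rfl

theorem box {n : ℕ} (γ : Fin n → ℕ → ℝ) {b x : Fin n → ℕ} (h : b ≤ x) :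
    ∑ R ∈ Icc b x, mu γ b R = ∏ j, γ j (x j) := by
  rw [box']; exact prod_congr rfl fun j _ => tele _ (h j)

section
variable {n : ℕ} {γ : Fin n → ℕ → ℝ} (g0 : ∀ j v, 0 ≤ γ j v) (gm : ∀ j, Monotone (γ j))
include g0 gm

theorem mu_nonneg (b R : Fin n → ℕ) : 0 ≤ mu γ b R := prod_nonneg fun j _ => by
  unfold lam
  split_ifs
  exacts [g0 _ _, sub_nonneg.2 (gm j (Nat.sub_le _ _))]

theorem pmono {x y : Fin n → ℕ} (h : x ≤ y) (s : Finset (Fin n)) :
    ∏ j ∈ s, γ j (x j) ≤ ∏ j ∈ s, γ j (y j) :=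
  prod_le_prod (fun _ _ => g0 _ _) fun j _ => gm j (h j)

theorem one {b y : Fin n → ℕ} (hy : b ≤ y) (i : Fin n) (Z : Finset (Fin n → ℕ))
    (hZ : ∀ x ∈ Z, b ≤ x ∧ x i = y i + 1 ∧ ∀ j, j ≠ i → x j ≤ y j ∧
      (b j < x j → γ j (x j - 1) * γ i (y i + 1) ≤ γ i (y i) * γ j (x j))) :
    ∃ E : Finset (Fin n → ℕ), E.card ≤ 2 ∧
      ∑ x ∈ Z \ E, mu γ b x ≤ n * (∏ j, γ j (y j) - ∏ j, γ j (b j)) := by
  let s : Fin n → ℕ := fun j => Z.sup (· j)
  let lo := Function.update b i (y i + 1)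
  refine ⟨{s, lo}, card_le_two, (cover _ (mu_nonneg g0 gm b) _ univ
    (fun j => (Z.erase lo).filter fun x => x j < s j) fun x hx => ?_).trans ?_⟩
  · obtain ⟨h1, h2⟩ := mem_sdiff.1 hx
    simp only [mem_insert, mem_singleton, not_or] at h2
    by_contra h
    refine h2.1 (funext fun j => le_antisymm (le_sup (f := (· j)) h1) (not_lt.1 fun h3 => ?_))
    exact h ⟨j, mem_univ _, mem_filter.2 ⟨mem_erase.2 ⟨h2.2, h1⟩, h3⟩⟩
  refine (sum_le_card_nsmul _ _ (∏ j, γ j (y j) - ∏ j, γ j (b j)) fun j _ => ?_).trans (by simp)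
  rcases ((Z.erase lo).filter fun x => x j < s j).eq_empty_or_nonempty with e | ⟨x, hx⟩
  · rw [e, sum_empty]; exact sub_nonneg.2 (pmono g0 gm hy _)
  obtain ⟨hx, hxj⟩ := mem_filter.1 hx
  have hx := mem_of_mem_erase hx
  obtain ⟨z, hz, ez⟩ : ∃ z ∈ Z, s j = z j := exists_mem_eq_sup Z ⟨x, hx⟩ (· j)
  have hji : j ≠ i := fun e => by
    have := (hZ x hx).2.1
    have := (hZ z hz).2.1
    rw [e] at hxj ez
    omega
  have hbj : b j ≤ x j := (hZ x hx).1 j
  obtain ⟨a1, a2⟩ := (hZ z hz).2.2 j hji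
  have a3 := (a2 (by omega)).trans (mul_le_mul_of_nonneg_left (gm j a1) (g0 _ _))
  let m := Function.update y j (z j - 1)
  have hm : b ≤ m := fun k => by
    rcases eq_or_ne k j with e | e
    · rw [e]; simp only [m, Function.update_self]; omega
    · simpa [m, e] using hy k
  let hi := Function.update m i (y i + 1)
  have hlo : lo ∈ Icc lo hi := mem_Icc.2 ⟨le_rfl, fun k => by
    rcases eq_or_ne k i with e | e
    · simp [lo, hi, e]
    · simpa [lo, hi, e] using hm k⟩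
  have l1 : lam (γ i) (b i) (y i + 1) = γ i (y i + 1) - γ i (y i) := by
    have : b i ≤ y i := hy i
    rw [lam, if_neg (by omega)]; simp
  have e1 : ∑ R ∈ Icc lo hi, mu γ b R =
      (γ i (y i + 1) - γ i (y i)) * ∏ k ∈ univ.erase i, γ k (m k) := by
    rw [box', ← mul_prod_erase _ _ (mem_univ i)]
    congr 1
    · simp [lo, hi, l1]
    · refine prod_congr rfl fun k hk => ?_
      have := ne_of_mem_erase hk
      simp only [lo, hi, Function.update_of_ne this]
      exact tele _ (hm k)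
  have e2 : mu γ b lo = (γ i (y i + 1) - γ i (y i)) * ∏ k ∈ univ.erase i, γ k (b k) := by
    rw [mu, ← mul_prod_erase _ _ (mem_univ i)]
    congr 1
    · simp [lo, l1]
    · exact prod_congr rfl fun k hk => by simp [lo, ne_of_mem_erase hk, lam]
  have hj : j ∈ univ.erase i := mem_erase.2 ⟨hji, mem_univ _⟩
  have e3 : ∏ k ∈ univ.erase i, γ k (m k) =
      γ j (z j - 1) * ∏ k ∈ (univ.erase i).erase j, γ k (y k) := by
    rw [← mul_prod_erase _ _ hj]
    congr 1
    · simp [m]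
    · exact prod_congr rfl fun k hk => by simp [m, ne_of_mem_erase hk]
  refine (sum_le_sum_of_subset_of_nonneg (t := (Icc lo hi).erase lo) (fun u hu => ?_)
    fun u _ _ => mu_nonneg g0 gm b u).trans ?_
  · obtain ⟨hu, h1⟩ := mem_filter.1 hu
    obtain ⟨h2, hu⟩ := mem_erase.1 hu
    obtain ⟨c1, c2, c3⟩ := hZ u hu
    refine mem_erase.2 ⟨h2, mem_Icc.2 ⟨fun k => ?_, fun k => ?_⟩⟩
    · rcases eq_or_ne k i with e | e
      · simp [lo, e, c2]
      · simpa [lo, e] using c1 k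
    · rcases eq_or_ne k i with e | e
      · simp [hi, e, c2]
      · rcases eq_or_ne k j with e' | e'
        · rw [e']
          simp only [hi, m, Function.update_of_ne hji, Function.update_self]
          omega
        · simpa [hi, m, e, e'] using (c3 k e).1
  have b1 := pmono g0 gm hm (univ.erase i)
  rw [sum_erase_eq_sub hlo, e1, e2, ← mul_prod_erase _ _ (mem_univ i),
    ← mul_prod_erase _ (fun k => γ k (b k)) (mem_univ i), ← mul_prod_erase _ (fun k => γ k (y k)) hj]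
  rw [e3] at b1 ⊢
  have q0 : 0 ≤ ∏ k ∈ (univ.erase i).erase j, γ k (y k) := prod_nonneg fun k _ => g0 _ _
  have q1 : 0 ≤ ∏ k ∈ univ.erase i, γ k (b k) := prod_nonneg fun k _ => g0 _ _
  have q2 : γ i (b i) ≤ γ i (y i + 1) := gm i ((hy i).trans (Nat.le_succ _))
  nlinarith [mul_le_mul_of_nonneg_right a3 q0, mul_le_mul_of_nonneg_right q2 q1,
    mul_le_mul_of_nonneg_left b1 (g0 i (y i))]

theorem key {b : Fin n → ℕ} (X Y : Finset (Fin n → ℕ)) (hX : ∀ x ∈ X, b < x)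
    (hY : ∀ y ∈ Y, b ≤ y)
    (dom : ∀ x ∈ X, ∀ i, b i < x i → ∃ y ∈ Y, x i = y i + 1 ∧ ∀ j, j ≠ i → x j ≤ y j) :
    ∃ E : Finset (Fin n → ℕ), E.card ≤ 2 * n * Y.card ∧
      ∑ x ∈ X \ E, mu γ b x ≤ n ^ 2 * ∑ y ∈ Y, (∏ j, γ j (y j) - ∏ j, γ j (b j)) := by
  classical
  let Z : (Fin n → ℕ) × Fin n → Finset (Fin n → ℕ) := fun p => X.filter fun x =>
    x p.2 = p.1 p.2 + 1 ∧ ∀ j, j ≠ p.2 → x j ≤ p.1 j ∧
      (b j < x j → γ j (x j - 1) * γ p.2 (p.1 p.2 + 1) ≤ γ p.2 (p.1 p.2) * γ j (x j))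
  choose! E h1 h2 using fun p (hp : p ∈ Y ×ˢ (univ : Finset (Fin n))) =>
    one g0 gm (hY _ (mem_product.1 hp).1) p.2 (Z p) fun x hx =>
      ⟨(hX x (mem_filter.1 hx).1).le, (mem_filter.1 hx).2⟩
  refine ⟨(Y ×ˢ univ).biUnion E, (card_biUnion_le_card_mul _ _ 2 h1).trans (by simp; nlinarith),
    (cover _ (mu_nonneg g0 gm b) _ (Y ×ˢ univ) (fun p => Z p \ E p) fun x hx => ?_).trans
      ((sum_le_sum h2).trans_eq ?_)⟩
  · obtain ⟨hx, hE⟩ := mem_sdiff.1 hx
    obtain ⟨i0, hi0⟩ := (Pi.lt_def.1 (hX x hx)).2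
    obtain ⟨i, hi, hm⟩ := exists_max_image (univ.filter fun i => b i < x i)
      (fun i => γ i (x i - 1) / γ i (x i)) ⟨i0, mem_filter.2 ⟨mem_univ _, hi0⟩⟩
    obtain ⟨y, hy, a1, a2⟩ := dom x hx i (mem_filter.1 hi).2
    have hp : (y, i) ∈ Y ×ˢ (univ : Finset (Fin n)) := mem_product.2 ⟨hy, mem_univ _⟩
    refine ⟨_, hp, mem_sdiff.2 ⟨mem_filter.2 ⟨hx, a1, fun j hj => ⟨a2 j hj, fun h => ?_⟩⟩,
      fun h => hE (mem_biUnion.2 ⟨_, hp, h⟩)⟩⟩
    have a3 := hm j (mem_filter.2 ⟨mem_univ _, h⟩)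
    rw [a1, Nat.add_sub_cancel] at a3
    dsimp only
    rcases (g0 i (y i + 1)).eq_or_lt with e | p1
    · rw [← e, mul_zero]; exact mul_nonneg (g0 _ _) (g0 _ _)
    rcases (g0 j (x j)).eq_or_lt with e | p2
    · have := gm j (Nat.sub_le (x j) 1)
      rw [← e] at this ⊢
      nlinarith
    exact (div_le_div_iff₀ p2 p1).1 a3
  · rw [sum_product, mul_sum]
    exact sum_congr rfl fun y _ => by simp; ring
end

section
variable {n h : ℕ} {a : Fin h → ℝ} {g : Fin h → Fin n → ℕ → ℝ} (ha : ∀ k, 0 ≤ a k)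
  (g0 : ∀ k j v, 0 ≤ g k j v) (gm : ∀ k j, Monotone (g k j))
include ha g0 gm

theorem main (K : ℕ) (t : ℝ) (L : ℕ) : ∀ (b : Fin n → ℕ) (X Y : Finset (Fin n → ℕ)),
    ∑ j, (K - b j) ≤ L → (∀ x ∈ X, b < x ∧ x ≤ fun _ => K) → (∀ y ∈ Y, b ≤ y) →
    (∀ y ∈ Y, ∑ k, a k * ∏ j, g k j (y j) ≤ t) → (∀ x ∈ X, t < ∑ k, a k * ∏ j, g k j (x j)) →
    (∀ x ∈ X, ∀ i, b i < x i → ∃ y ∈ Y, x i = y i + 1 ∧ ∀ j, j ≠ i → x j ≤ y j) →
    X.card ≤ L * (n ^ 2 + 2 * h * n) * Y.card := by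
  classical
  have drop : ∀ b R : Fin n → ℕ, b < R → (R ≤ fun _ => K) → ∑ j, (K - R j) < ∑ j, (K - b j) := by
    intro b R h1 h2
    obtain ⟨h1, i, hi⟩ := Pi.lt_def.1 h1
    refine sum_lt_sum (fun j _ => Nat.sub_le_sub_left (h1 j) _) ⟨i, mem_univ _, ?_⟩
    have : R i ≤ K := h2 i
    omega
  induction L with
  | zero =>
    intro b X Y hL hX _ _ _ _
    rw [eq_empty_of_forall_notMem (s := X) fun x hx => by
      have := drop b x (hX x hx).1 (hX x hx).2; omega]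
    simp
  | succ L ih =>
    intro b X Y hL hX hY h1 h2 dom
    choose E e1 e2 using fun k => key (g0 k) (gm k) X Y (fun x hx => (hX x hx).1) hY dom
    set X1 := X \ univ.biUnion E with hX1
    have c1 : (univ.biUnion E).card ≤ h * (2 * n * Y.card) :=
      (card_biUnion_le_card_mul _ _ _ fun k _ => e1 k).trans (by simp)
    have c2 : X.card ≤ X1.card + (univ.biUnion E).card := card_le_card_sdiff_add_card
    suffices X1.card ≤ (n ^ 2 + L * (n ^ 2 + 2 * h * n)) * Y.card by nlinarith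
    rcases X1.eq_empty_or_nonempty with e | hne
    · simp [e]
    let f : (Fin n → ℕ) → ℝ := fun x => ∑ k, a k * ∏ j, g k j (x j)
    let μ : (Fin n → ℕ) → ℝ := fun R => ∑ k, a k * mu (g k) b R
    have μ0 : ∀ R, 0 ≤ μ R := fun R =>
      sum_nonneg fun k _ => mul_nonneg (ha k) (mu_nonneg (g0 k) (gm k) _ _)
    have fb : ∀ z, b ≤ z → ∑ R ∈ Icc b z, μ R = f z := fun z hz => by
      rw [sum_comm]
      exact sum_congr rfl fun k _ => by rw [← mul_sum, box _ hz]
    have fo : ∀ z, b ≤ z → ∑ R ∈ Ioc b z, μ R = f z - f b := fun z hz => by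
      rw [← fb z hz, ← fb b le_rfl, Icc_self, sum_singleton, ← Icc_erase_left,
        sum_erase_eq_sub (left_mem_Icc.2 hz)]
    have sub : ∀ x ∈ X1, x ∈ X := fun x hx => (mem_sdiff.1 hx).1
    let B := Ioc b fun _ => K
    have s1 : ∑ x ∈ X1, μ x ≤ n ^ 2 * ∑ y ∈ Y, (f y - f b) := by
      rw [sum_comm]
      calc _ ≤ ∑ k, a k * (n ^ 2 * ∑ y ∈ Y, (∏ j, g k j (y j) - ∏ j, g k j (b j))) :=
            sum_le_sum fun k _ => by
              rw [← mul_sum]
              refine mul_le_mul_of_nonneg_left (le_trans (sum_le_sum_of_subset_of_nonneg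
                (sdiff_subset_sdiff subset_rfl (subset_biUnion_of_mem E (mem_univ k)))
                fun u _ _ => mu_nonneg (g0 k) (gm k) _ _) (e2 k)) (ha k)
        _ = _ := by
            simp only [f, ← sum_sub_distrib, mul_sum]
            rw [sum_comm]
            exact sum_congr rfl fun y _ => sum_congr rfl fun k _ => by ring
    have s2 : ∀ R ∈ B, (X1.filter (R < ·)).card ≤
        L * (n ^ 2 + 2 * h * n) * (Y.filter (R ≤ ·)).card := fun R hR => by
      obtain ⟨r1, r2⟩ := mem_Ioc.1 hR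
      refine ih R _ _ (by have := drop b R r1 r2; omega)
        (fun x hx => ⟨(mem_filter.1 hx).2, (hX x (sub x (mem_filter.1 hx).1)).2⟩)
        (fun y hy => (mem_filter.1 hy).2) (fun y hy => h1 y (mem_filter.1 hy).1)
        (fun x hx => h2 x (sub x (mem_filter.1 hx).1)) fun x hx i hi => ?_
      obtain ⟨hx, r3⟩ := mem_filter.1 hx
      obtain ⟨y, hy, a1, a2⟩ := dom x (sub x hx) i ((r1.le i).trans_lt hi)
      refine ⟨y, mem_filter.2 ⟨hy, fun j => ?_⟩, a1, a2⟩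
      rcases eq_or_ne j i with e | e
      · rw [e]; exact Nat.le_of_lt_succ (hi.trans_eq a1)
      · exact (r3.le j).trans (a2 j e)
    have s3 : ∑ y ∈ Y, (f y - f b) ≤ Y.card * (t - f b) :=
      (sum_le_card_nsmul _ _ (t - f b) fun y hy => sub_le_sub_right (h1 y hy) _).trans (by simp)
    have s4 : ∑ x ∈ X1, ∑ R ∈ B with R < x, μ R ≤
        (L * (n ^ 2 + 2 * h * n) : ℕ) * ∑ y ∈ Y, (f y - f b) := by
      calc _ = ∑ R ∈ B, μ R * (X1.filter (R < ·)).card := by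
              simp only [sum_filter, card_filter]
              rw [sum_comm]
              simp [mul_sum, -sum_boole]
        _ ≤ ∑ R ∈ B, μ R * ((L * (n ^ 2 + 2 * h * n) : ℕ) * (Y.filter (R ≤ ·)).card) :=
              sum_le_sum fun R hR => mul_le_mul_of_nonneg_left (by exact_mod_cast s2 R hR) (μ0 R)
        _ = (L * (n ^ 2 + 2 * h * n) : ℕ) * ∑ y ∈ Y, ∑ R ∈ B with R ≤ y, μ R := by
              simp only [sum_filter, card_filter]
              rw [sum_comm, mul_sum]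
              refine sum_congr rfl fun u _ => ?_
              rw [mul_left_comm]
              simp [mul_sum, -sum_boole]
        _ ≤ _ := mul_le_mul_of_nonneg_left (sum_le_sum fun y hy => by
              rw [← fo y (hY y hy)]
              exact sum_le_sum_of_subset_of_nonneg (fun R hR => mem_Ioc.2
                ⟨(mem_Ioc.1 (mem_filter.1 hR).1).1, (mem_filter.1 hR).2⟩) fun u _ _ => μ0 u)
              (Nat.cast_nonneg _)
    have s5 : (X1.card : ℝ) * (t - f b) < ∑ x ∈ X1, (μ x + ∑ R ∈ B with R < x, μ R) := by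
      rw [← nsmul_eq_mul, ← sum_const]
      refine sum_lt_sum_of_nonempty hne fun x hx => ?_
      obtain ⟨a1, a2⟩ := hX x (sub x hx)
      have : B.filter (· < x) = (Ioc b x).erase x := by
        ext R
        simp only [B, mem_filter, mem_Ioc, mem_erase, lt_iff_le_and_ne (a := R)]
        exact ⟨fun h => ⟨h.2.2, h.1.1, h.2.1⟩, fun h => ⟨⟨h.2.1, h.2.2.trans a2⟩, h.2.2, h.1⟩⟩
      rw [this, add_sum_erase _ _ (mem_Ioc.2 ⟨a1, le_rfl⟩), fo x a1.le]
      exact sub_lt_sub_right (h2 x (sub x hx)) _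
    have t0 : 0 ≤ t - f b := by
      obtain ⟨x, hx⟩ := hne
      obtain ⟨i, hi⟩ := (Pi.lt_def.1 (hX x (sub x hx)).1).2
      obtain ⟨y, hy, -⟩ := dom x (sub x hx) i hi
      have := sum_nonneg (s := Ioc b y) fun R _ => μ0 R
      rw [fo y (hY y hy)] at this
      exact this.trans (sub_le_sub_right (h1 y hy) _)
    rw [sum_add_distrib] at s5
    have s6 : (X1.card : ℝ) * (t - f b) <
        ((n ^ 2 + L * (n ^ 2 + 2 * h * n)) * Y.card : ℕ) * (t - f b) := by
      have u1 := mul_le_mul_of_nonneg_left s3 (sq_nonneg (n : ℝ))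
      have u2 := mul_le_mul_of_nonneg_left s3 (Nat.cast_nonneg (L * (n ^ 2 + 2 * h * n)))
      push_cast at *
      linarith
    exact_mod_cast (lt_of_mul_lt_mul_right s6 t0).le

theorem comp (t : ℝ) (X Y : Finset (Fin n → ℕ))
    (h1 : ∀ y ∈ Y, ∑ k, a k * ∏ j, g k j (y j) ≤ t)
    (h2 : ∀ x ∈ X, t < ∑ k, a k * ∏ j, g k j (x j))
    (dom : ∀ x ∈ X, ∀ i, x i ≠ 0 → ∃ y ∈ Y, x i = y i + 1 ∧ ∀ j, j ≠ i → x j ≤ y j) :
    X.card ≤ n ^ 2 * (n + 2 * h) * Y.card ^ 2 + 1 := by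
  classical
  let V : Fin n → Finset ℕ := fun j => Y.image (· j + 1)
  let r : Fin n → ℕ → ℕ := fun j v => ((V j).filter (· ≤ v)).card
  let e : Fin n → ℕ → ℕ := fun j k => ((V j).filter (r j · ≤ k)).sup id
  have rm : ∀ j, Monotone (r j) := fun j u v h =>
    card_le_card (monotone_filter_right _ fun w _ hw => le_trans hw h)
  have rs : ∀ j, ∀ v ∈ V j, ∀ u, u < v → r j u < r j v := fun j v hv u h =>
    card_lt_card ⟨monotone_filter_right _ fun w _ hw => le_trans hw h.le,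
      fun h' => (mem_filter.1 (h' (mem_filter.2 ⟨hv, le_rfl⟩))).2.not_gt h⟩
  have e1 : ∀ j u, e j (r j u) ≤ u := fun j u => Finset.sup_le fun v hv =>
    not_lt.1 fun h => (rs j v (mem_filter.1 hv).1 u h).not_ge (mem_filter.1 hv).2
  have hV : ∀ x ∈ X, ∀ j, x j ≠ 0 → x j ∈ V j := fun x hx j hj => by
    obtain ⟨y, hy, a1, -⟩ := dom x hx j hj
    exact mem_image.2 ⟨y, hy, a1.symm⟩
  have e2 : ∀ x ∈ X, ∀ j, e j (r j (x j)) = x j := fun x hx j => (e1 j _).antisymm (by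
    rcases eq_or_ne (x j) 0 with h | h
    · omega
    · exact le_sup (f := id) (mem_filter.2 ⟨hV x hx j h, le_rfl⟩))
  let φ : (Fin n → ℕ) → Fin n → ℕ := fun x j => r j (x j)
  have inj : Set.InjOn φ X := fun x hx x' hx' h => funext fun j => by
    rw [← e2 x hx j, ← e2 x' hx' j]
    exact congrArg (e j) (congrFun h j)
  have := main (g := fun k j v => g k j (e j v)) ha (fun k j v => g0 _ _ _)
    (fun k j u v h => gm k j (sup_mono (monotone_filter_right _ fun w _ hw => le_trans hw h)))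
    Y.card t (n * Y.card) 0 ((X.image φ).erase 0) (Y.image φ) (by simp) (fun x hx => ?_)
    (fun y _ => zero_le) (fun y hy => ?_) (fun x hx => ?_) fun x hx i hi => ?_
  · have a1 := pred_card_le_card_erase (s := X.image φ) (a := 0)
    rw [card_image_of_injOn inj] at a1
    have a2 := Nat.mul_le_mul_left (n * Y.card * (n ^ 2 + 2 * h * n)) (card_image_le (s := Y) (f := φ))
    have a3 : n * Y.card * (n ^ 2 + 2 * h * n) * Y.card = n ^ 2 * (n + 2 * h) * Y.card ^ 2 := by ring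
    omega
  · obtain ⟨a1, a2⟩ := mem_erase.1 hx
    obtain ⟨x, hx, rfl⟩ := mem_image.1 a2
    exact ⟨pos_iff_ne_zero.2 a1, fun j => (card_filter_le _ _).trans card_image_le⟩
  · replace hy := mem_image.1 hy
    obtain ⟨y, hy, rfl⟩ := hy
    exact (sum_le_sum fun k _ => mul_le_mul_of_nonneg_left (prod_le_prod (fun j _ => g0 _ _ _)
      fun j _ => gm k j (e1 j _)) (ha k)).trans (h1 y hy)
  · replace hx := mem_image.1 (mem_of_mem_erase hx)
    obtain ⟨x, hx, rfl⟩ := hx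
    simpa only [φ, e2 x hx] using h2 x hx
  · replace hx := mem_image.1 (mem_of_mem_erase hx)
    obtain ⟨x, hx, rfl⟩ := hx
    have hi' : x i ≠ 0 := fun h => by
      have : r i 0 = 0 := card_eq_zero.2 (filter_eq_empty_iff.2 fun v hv => by
        obtain ⟨y, _, rfl⟩ := mem_image.1 hv
        omega)
      simp [φ, h, this] at hi
    obtain ⟨y, hy, a1, a2⟩ := dom x hx i hi'
    refine ⟨φ y, mem_image_of_mem _ hy, ?_, fun j hj => rm j (a2 j hj)⟩
    have : (V i).filter (· ≤ x i) = insert (x i) ((V i).filter (· ≤ y i)) := by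
      ext v
      have := hV x hx i hi'
      simp only [mem_filter, mem_insert]
      constructor
      · rintro ⟨b1, b2⟩
        rcases b2.eq_or_lt with b | b
        exacts [Or.inl b, Or.inr ⟨b1, by omega⟩]
      · rintro (rfl | ⟨b1, b2⟩)
        exacts [⟨this, le_rfl⟩, ⟨b1, by omega⟩]
    simp only [φ, r]
    rw [this, card_insert_of_notMem (by simp; omega)]
end

/-- minimal elements of the box `0 ≤ x ≤ c` that are dominated by no member of `𝒜` -/
def Ind {n : ℕ} (c : Fin n → ℕ) (𝒜 : Set (Fin n → ℕ)) : Set (Fin n → ℕ) :=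
  {x | Minimal (fun x => x ≤ c ∧ ∀ a ∈ 𝒜, ¬x ≤ a) x}

/-- feasible vectors of the box such that each unit step leaves the box or is infeasible -/
def MaxFeas {n : ℕ} (f : (Fin n → ℕ) → ℝ) (t : ℝ) (c : Fin n → ℕ) : Set (Fin n → ℕ) :=
  {x | x ≤ c ∧ f x ≤ t ∧ ∀ j, ¬(x + Pi.single j 1 ≤ c) ∨ t < f (x + Pi.single j 1)}

theorem gen {n h : ℕ} (a : Fin h → ℝ) (g : Fin h → Fin n → ℕ → ℝ) (ha : ∀ k, 0 ≤ a k)
    (g0 : ∀ k j v, 0 ≤ g k j v) (gm : ∀ k j, Monotone (g k j)) (t : ℝ) (c : Fin n → ℕ)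
    (Y : Finset (Fin n → ℕ)) (f : (Fin n → ℕ) → ℝ) (hf : ∀ x, f x = ∑ k, a k * ∏ j, g k j (x j))
    (hY : ↑Y ⊆ MaxFeas f t c) :
    (Ind c Y ∩ Ind c (MaxFeas f t c)).Finite ∧
      (Ind c Y ∩ Ind c (MaxFeas f t c)).ncard ≤ n ^ 2 * (n + 2 * h) * Y.card ^ 2 + 1 := by
  have hf' : (Ind c Y ∩ Ind c (MaxFeas f t c)).Finite :=
    (Set.finite_Iic c).subset fun x hx => hx.1.1.1
  refine ⟨hf', ?_⟩
  rw [Set.ncard_eq_toFinset_card _ hf']
  refine comp ha g0 gm t _ Y (fun y hy => (hf y).ge.trans (hY hy).2.1) (fun x hx => ?_)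
    fun x hx i hi => ?_
  · obtain ⟨h1, h2⟩ := hf'.mem_toFinset.1 hx
    rw [← hf]
    by_contra h
    obtain ⟨z, a1, a2⟩ := Set.Finite.exists_le_maximal (s := {x | x ≤ c ∧ f x ≤ t})
      ((Set.finite_Iic c).subset fun x hx => hx.1) (a := x) ⟨h1.1.1, not_lt.1 h⟩
    refine h2.1.2 z ⟨a2.1.1, a2.1.2, fun j => by_contra fun h' => ?_⟩ a1
    push Not at h'
    simpa using a2.2 h' le_self_add j
  · have hm := (hf'.mem_toFinset.1 hx).1
    have l1 : Function.update x i (x i - 1) ≤ x := update_le_self_iff.2 (Nat.sub_le _ _)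
    by_contra h
    have h5 : x i ≤ Function.update x i (x i - 1) i := by
      refine hm.2 ⟨l1.trans hm.1.1, fun y hy hl => h ⟨y, hy, ?_, fun j hj => ?_⟩⟩ l1 i
      · have a1 : Function.update x i (x i - 1) i ≤ y i := hl i
        rw [Function.update_self] at a1
        by_contra a2
        refine hm.1.2 y hy fun j => ?_
        show x j ≤ y j
        rcases eq_or_ne j i with e | hj
        · rw [e]; omega
        · simpa [hj] using hl j
      · simpa [hj] using hl j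
    rw [Function.update_self] at h5
    omega

/-- A dual bound polynomial in `n`, the number `h` of monomials and `|Y|`, first for sums of
monomials, then for sums of products of monotone functions of one variable. -/
theorem result {n h : ℕ} (a : Fin h → ℝ) (ha : ∀ k, 0 ≤ a k) (t : ℝ) (c : Fin n → ℕ)
    (Y : Finset (Fin n → ℕ)) (f : (Fin n → ℕ) → ℝ) (hY : ↑Y ⊆ MaxFeas f t c)
    (hf : (∃ (H : Fin h → Finset (Fin n)) (d : Fin h → Fin n → ℕ),
        ∀ x, f x = ∑ k, a k * ∏ j ∈ H k, (x j : ℝ) ^ d k j) ∨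
      ∃ g : Fin h → Fin n → ℕ → ℝ, (∀ k j v, 0 ≤ g k j v) ∧ (∀ k j, Monotone (g k j)) ∧
        ∀ x, f x = ∑ k, a k * ∏ j, g k j (x j)) :
    (Ind c Y ∩ Ind c (MaxFeas f t c)).Finite ∧
      (Ind c Y ∩ Ind c (MaxFeas f t c)).ncard ≤ n ^ 2 * (n + 2 * h) * Y.card ^ 2 + 1 := by
  rcases hf with ⟨H, d, hf⟩ | ⟨g, g0, gm, hf⟩
  · refine gen a (fun k j v => if j ∈ H k then (v : ℝ) ^ d k j else 1) ha
      (fun k j v => by positivity) (fun k j u v h => ?_) t c Y f (fun x => ?_) hY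
    · dsimp only
      split_ifs
      · gcongr
      · rfl
    · simp [hf]
  · exact gen a g ha g0 gm t c Y f hf hY

end Pool.Agent.Results.MP_51bff2_lc.Poly
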